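import Pool.Agent.Helper64.DT.FINAL

/-! MP_866009_co: circle graphs without induced diamonds (the Helly circle graphs): neighbourhoods
without asteroidal triples and consistent colourings of the conflict graphs at cliques. -/

set_option autoImplicit false

namespace Pool.Agent.Results.MP_866009_co.DiamondFree

open Pool.Agent.Helper64.HG Pool.Agent.Helper64.CT Pool.Agent.Helper64.DT

theorem result : ∀ (V : Type) [Finite V] (G : SimpleGraph V), DF G →
    (Nonempty (ChordModel G) ↔ CI G ∧ ∀ Q : Set V, MaxC G Q → CQ G Q) :=
  final

end Pool.Agent.Results.MP_866009_co.DiamondFree
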