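import Pool.Agent.Helper64.FX.Final

/-! MP_866009_co: all minimal forbidden induced subgraphs for the Helly circle graphs. -/

set_option autoImplicit false

namespace Pool.Agent.Results.MP_866009_co.FullList

open Pool.Agent.Helper64.FX

theorem result : ∀ (V : Type) [Finite V] (G : SimpleGraph V),
    (MinForb G ↔ InF G) ∧ (HellyCircle G ↔ ∀ S : Set V, ¬ InF (G.induce S)) :=
  full

end Pool.Agent.Results.MP_866009_co.FullList
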